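import Pool.Agent.Helper22_DEN4.Stmt

/-!
# KTR: transfer of a function on `H / L` to `H' / L'`
-/

open scoped BigOperators

namespace Pool.Agent.DEN.H224

theorem ktr : KtrStmt := by
  intro G _ H L H' L' hLH hH'H hL'H' hL'L hint hfac κ hκ hH c hc
  -- the map on cosets
  let ι : H' → H := fun g => ⟨g.1, hH g⟩
  have hιmul : ∀ a b : H', ι (a⁻¹ * b) = (ι a)⁻¹ * ι b := by
    intro a b
    apply Subtype.ext
    rfl
  have hwd : ∀ a b : H', (QuotientGroup.leftRel (L'.subgroupOf H')) a b →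
      (QuotientGroup.leftRel (L.subgroupOf H)) (ι a) (ι b) := by
    intro a b hab
    rw [QuotientGroup.leftRel_apply] at hab ⊢
    rw [Subgroup.mem_subgroupOf] at hab ⊢
    rw [← hιmul]
    exact hL'L hab
  let φ : H' ⧸ L'.subgroupOf H' → H ⧸ L.subgroupOf H :=
    Quotient.map' ι hwd
  have hφmk : ∀ a : H', φ (QuotientGroup.mk a) = QuotientGroup.mk (ι a) := fun a => rfl
  have hinj : Function.Injective φ := by
    intro x y
    induction x using QuotientGroup.induction_on with
    | H a =>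
    induction y using QuotientGroup.induction_on with
    | H b =>
    intro hab
    rw [hφmk, hφmk, QuotientGroup.eq, Subgroup.mem_subgroupOf, ← hιmul] at hab
    rw [QuotientGroup.eq, Subgroup.mem_subgroupOf]
    exact hint _ (a⁻¹ * b).2 hab
  have hsurj : Function.Surjective φ := by
    intro x
    induction x using QuotientGroup.induction_on with
    | H g =>
    obtain ⟨γ, hγ, l, hl, hgl⟩ := hfac g.1 g.2
    refine ⟨QuotientGroup.mk ⟨γ, hγ⟩, ?_⟩
    rw [hφmk, QuotientGroup.eq, Subgroup.mem_subgroupOf]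
    have h1 : ((ι ⟨γ, hγ⟩)⁻¹ * g : H).1 = l := by
      show (γ)⁻¹ * g.1 = l
      rw [hgl]
      group
    rw [h1]
    exact hl
  let e : (H' ⧸ L'.subgroupOf H') ≃ (H ⧸ L.subgroupOf H) := Equiv.ofBijective φ ⟨hinj, hsurj⟩
  have he : ∀ x, e x = φ x := fun x => rfl
  have hout : ∀ x : H' ⧸ L'.subgroupOf H', ∃ k ∈ L.subgroupOf H, (φ x).out = ι x.out * k := by
    intro x
    refine ⟨(ι x.out)⁻¹ * (φ x).out, ?_, by group⟩
    rw [← QuotientGroup.eq, ← hφmk]
    rw [QuotientGroup.out_eq', QuotientGroup.out_eq']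
  have hκ2 : ∀ x y : H' ⧸ L'.subgroupOf H',
      κ ((φ x).out⁻¹ * (φ y).out) = κ (ι (x.out⁻¹ * y.out)) := by
    intro x y
    obtain ⟨k, hk, hxk⟩ := hout x
    obtain ⟨k', hk', hyk⟩ := hout y
    rw [hxk, hyk, hιmul]
    have h1 : (ι x.out * k)⁻¹ * (ι y.out * k') = k⁻¹ * (((ι x.out)⁻¹ * ι y.out) * k') := by
      group
    rw [h1, (hκ k⁻¹ (inv_mem hk) _).1, (hκ k' hk' _).2]
  refine ⟨fun x => c (φ x), ?_, ?_, ?_, ?_⟩
  · have : Function.support (fun x => c (φ x)) = φ ⁻¹' (Function.support c) := rfl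
    rw [this]
    exact hc.preimage hinj.injOn
  · intro y hy a hya
    rw [hya] at hy
    exact hy
  · exact finsum_comp_equiv e (f := fun y => ‖c y‖ ^ 2)
  · intro m lam hfun F hF
    have h1 := hfun (fun y => F (e.symm y)) (by
      intro x
      obtain ⟨x', rfl⟩ := e.surjective x
      rw [Equiv.symm_apply_apply, ← hF x']
      rw [← finsum_comp_equiv e]
      apply finsum_congr
      intro y
      rw [Equiv.symm_apply_apply]
      have := hκ2 x' y
      rw [he, he, this])
    rw [← finsum_comp_equiv e] at h1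
    have h2 : e.symm (QuotientGroup.mk 1) = QuotientGroup.mk 1 := by
      rw [Equiv.symm_apply_eq]
      rfl
    rw [h2] at h1
    rw [← h1]
    apply finsum_congr
    intro y
    rw [Equiv.symm_apply_apply]
    rfl

end Pool.Agent.DEN.H224
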