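import Pool.Agent.Helper22_DEN4.Fin4
import Pool.Agent.Helper22_DEN4.Ktr
import Pool.Agent.Helper50_DEN4.Kpo
import Pool.Agent.Helper50_DEN4.Cn2

/-!
# The Ramanujan bound for 100 % of the cusp forms: the modules together
-/

namespace Pool.Agent.DEN.H224

open Pool.Agent.DEN

theorem hKpo : KpoStmt := H504.kpo

theorem hCn2 : Cn2Stmt :=
  H504.cn2 H22.hBir H22.hVan H22.hStl H26.mas H22.hFin H22.hFsp H22.hRS H22.hNrm H22.hRF

theorem hKtr : KtrStmt := ktr

end Pool.Agent.DEN.H224
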