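import Pool.Agent.Helper22_DEN4.Asm4
import Pool.Agent.Helper22_DEN2.Pub2

/-!
# The exact Ramanujan bound for 100 % of the cusp forms over `𝔽_q(t)`, nonnegative Hecke operators

`G` is a split simply laced group (types `A`, `D`, `E₆`, `E₇`, `E₈` and sums) over `F = 𝔽_q((1/t))`,
`X = G(F) / G(𝒪)`, `κ ≥ 0` a symmetric spherical Hecke function at the place `v`, where `v = ∞` or
`v` is (the set of places dividing) a nonconstant polynomial `P`, and `τ` a bound for the norm of the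
Hecke operator `T_κ` on `ℓ²` of the local coset space (for instance this norm).  For the levels `N`
divisible by the fourth power of a fixed irreducible polynomial, the proportion of the cusp eigenforms
of level `N` with `|λ| ≥ τ` tends to `0` as `deg N → ∞`.
-/

open scoped BigOperators

open Pool.Agent.DEN Pool.Agent.DEN.Pub

theorem Pool.Agent.DEN.ExactKept.exact_ramanujan
    {r : ℕ} (hr : 0 < r) (C : Matrix (Fin r) (Fin r) ℤ) (hC : SimplyLaced C)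
    (K : Type) [Field K] [Finite K] (P₀ : Polynomial K) (hP₀ : Irreducible P₀) (R : ℕ)
    (τ ε : ℝ) (hτ : 0 < τ) (hε : 0 < ε) :
    -- the place `∞`
    (∀ κ : G C K → ℝ, Pub.HeckeInf (fun g => (κ g : ℂ)) R → (∀ g, 0 ≤ κ g) →
      (∀ g, κ g⁻¹ = κ g) → (∃ g, κ g ≠ 0 ∧ ∀ n : ℕ, 0 < n → g ^ n ∉ Pub.maxK C K) →
      Pub.NormLE (Pub.maxK C K) (fun g => (κ g : ℂ)) τ →
      ∃ D : ℕ, ∀ N : Polynomial K, N ≠ 0 → P₀ ^ 4 ∣ N → D ≤ N.natDegree →
        ∀ (n : ℕ) (f : Fin n → X C K → ℂ), (∀ j, Pub.IsCusp N (f j)) →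
        (∀ i j, Pub.petersson N (f i) (f j) = if i = j then 1 else 0) → ∀ lam : Fin n → ℂ,
        (∀ j, Pub.EigenInf (fun g => (κ g : ℂ)) (lam j) (f j)) → (∀ j, τ ≤ ‖lam j‖) →
        (n : ℝ) ≤ ε * dimCusp C N) ∧
    -- the places `P` prime to `N`
    (∀ P : Polynomial K, 0 < P.natDegree → ∀ κ : GP C K P → ℝ,
      Pub.HeckeFin P (fun g => (κ g : ℂ)) R → (∀ g, 0 ≤ κ g) →
      (∀ g, κ g⁻¹ = κ g) → (∃ g, κ g ≠ 0 ∧ ∀ n : ℕ, 0 < n → g ^ n ∉ Γ C K P) →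
      Pub.NormLE (Γ C K P) (fun g => (κ g : ℂ)) τ →
      ∃ D : ℕ, ∀ N : Polynomial K, N ≠ 0 → P₀ ^ 4 ∣ N → IsCoprime P N → D ≤ N.natDegree →
        ∀ (n : ℕ) (f : Fin n → X C K → ℂ), (∀ j, Pub.IsCusp N (f j)) →
        (∀ i j, Pub.petersson N (f i) (f j) = if i = j then 1 else 0) → ∀ lam : Fin n → ℂ,
        (∀ j, Pub.EigenFin P N (fun g => (κ g : ℂ)) (lam j) (f j)) → (∀ j, τ ≤ ‖lam j‖) →
        (n : ℝ) ≤ ε * dimCusp C N) :=
  ⟨fun κ h1 h2 h3 h4 h5 => H224.inf_part H224.hKpo H224.hCn2 hr hC P₀ hP₀ R τ ε hτ hε κ h1 h2 h3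
      h4 h5,
    fun P hP κ h1 h2 h3 h4 h5 => H224.fin_part H224.hKpo H224.hCn2 H224.hKtr hr hC P₀ hP₀ R τ ε hτ
      hε P hP κ h1 h2 h3 h4 h5⟩
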