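import Pool.Agent.Helper22_DEN4.Th2
import Pool.Agent.Helper22_DEN2.Asm
import Pool.Agent.Helper22_DEN.Main

/-!
# The Ramanujan bound for 100 % of the cusp forms: assembly
-/

open scoped BigOperators

namespace Pool.Agent.DEN.H224

open Pool.Agent.DEN Pool.Agent.DEN.H22

/-- The numerical part. -/
theorem num (q D a r c : ℕ) (hq : 2 ≤ q) (hD : 2 * a + 3 ≤ D) (ε τ ind dim S : ℝ) (m n : ℕ)
    (lam : Fin n → ℂ) (hτ : 0 < τ) (hind : 0 ≤ ind) (hdim : ind ≤ (q : ℝ) ^ c * dim)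
    (hε : 0 < ε) (hS0 : 0 ≤ S) (hS : S ≤ ε / (3 ^ r * (q : ℝ) ^ c) * τ ^ (2 * m))
    (hl : ∀ j, τ ≤ ‖lam j‖)
    (H : ∑ j, ‖lam j ^ m‖ ^ 2 ≤ (2 + D / (q : ℝ) ^ (D - 1 - a)) ^ r * ind * S) :
    (n : ℝ) ≤ ε * dim := by
  have hq0 : (0 : ℝ) < q := by
    have : 0 < q := by omega
    exact_mod_cast this
  have h1 : (n : ℝ) * τ ^ (2 * m) ≤ ∑ j, ‖lam j ^ m‖ ^ 2 := by
    calc (n : ℝ) * τ ^ (2 * m) = ∑ _j : Fin n, τ ^ (2 * m) := by simp
      _ ≤ _ := Finset.sum_le_sum fun j _ => by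
        rw [norm_pow, ← pow_mul, mul_comm m 2]
        exact pow_le_pow_left₀ hτ.le (hl j) _
  have h2 : (D : ℝ) / (q : ℝ) ^ (D - 1 - a) ≤ 1 := by
    rw [div_le_one (by positivity)]
    have h3 : D ≤ 2 ^ (D - 1 - a) := by
      obtain ⟨b, hb⟩ : ∃ b, D - 1 - a = b := ⟨_, rfl⟩
      rw [hb]
      have h4 : D ≤ 2 * b := by omega
      have h5 : ∀ b : ℕ, 2 ≤ b → 2 * b ≤ 2 ^ b := by
        intro b hb
        induction b, hb using Nat.le_induction with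
        | base => norm_num
        | succ k hk ih => rw [pow_succ]; omega
      exact h4.trans (h5 b (by omega))
    have h6 : D ≤ q ^ (D - 1 - a) := h3.trans (Nat.pow_le_pow_left hq _)
    exact_mod_cast h6
  have h3 : (2 + (D : ℝ) / (q : ℝ) ^ (D - 1 - a)) ^ r ≤ 3 ^ r := by
    apply pow_le_pow_left₀ (by positivity)
    linarith
  have h4 : (n : ℝ) * τ ^ (2 * m) ≤ 3 ^ r * ((q : ℝ) ^ c * dim) *
      (ε / (3 ^ r * (q : ℝ) ^ c) * τ ^ (2 * m)) := by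
    refine (h1.trans H).trans ?_
    have h5 : (2 + (D : ℝ) / (q : ℝ) ^ (D - 1 - a)) ^ r * ind ≤ 3 ^ r * ((q : ℝ) ^ c * dim) :=
      mul_le_mul h3 hdim hind (by positivity)
    have h6 : 0 ≤ 3 ^ r * ((q : ℝ) ^ c * dim) := by
      have := hind.trans hdim
      positivity
    exact mul_le_mul h5 hS hS0 h6
  have h5 : 3 ^ r * ((q : ℝ) ^ c * dim) * (ε / (3 ^ r * (q : ℝ) ^ c) * τ ^ (2 * m)) =
      (ε * dim) * τ ^ (2 * m) := by
    field_simp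
  rw [h5] at h4
  exact le_of_mul_le_mul_right h4 (pow_pos hτ _)

section
variable {r : ℕ} {C : Matrix (Fin r) (Fin r) ℤ} {K : Type} [Field K]

theorem inf_part (hKpo : KpoStmt) (hCn2 : Cn2Stmt) [Finite K] (hr : 0 < r) (hC : SimplyLaced C)
    (P₀ : Polynomial K) (hP₀ : Irreducible P₀) (R : ℕ) (τ ε : ℝ) (hτ : 0 < τ) (hε : 0 < ε)
    (κ : grp C K → ℝ) (hκ : HeckeInf (fun g => (κ g : ℂ)) R) (hpos : ∀ g, 0 ≤ κ g)
    (hsym : ∀ g, κ g⁻¹ = κ g) (hinf : ∃ g, κ g ≠ 0 ∧ ∀ n : ℕ, 0 < n → g ^ n ∉ maxK C K)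
    (hnorm : NormLE (maxK C K) (fun g => (κ g : ℂ)) τ) :
    ∃ D : ℕ, ∀ N : Polynomial K, N ≠ 0 → P₀ ^ 4 ∣ N → D ≤ N.natDegree →
      ∀ (n : ℕ) (f : Fin n → XX C K → ℂ), (∀ j, IsCusp N (f j)) →
      (∀ i j, petersson N (f i) (f j) = if i = j then 1 else 0) → ∀ lam : Fin n → ℂ,
      (∀ j, EigenInf (fun g => (κ g : ℂ)) (lam j) (f j)) → (∀ j, τ ≤ ‖lam j‖) →
      (n : ℝ) ≤ ε * Module.finrank ℂ (Submodule.span ℂ {f : XX C K → ℂ | IsCusp N f}) := by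
  obtain ⟨hκ1, hκ2, hκ3⟩ := hκ
  have hκr : ∀ k ∈ maxK C K, ∀ g, κ (k * g) = κ g ∧ κ (g * k) = κ g := fun k hk g =>
    ⟨Complex.ofReal_injective (hκ1 k hk g).1, Complex.ofReal_injective (hκ1 k hk g).2⟩
  have hκf : {y : grp C K ⧸ maxK C K | κ y.out ≠ 0}.Finite := by
    have h : {y : grp C K ⧸ maxK C K | κ y.out ≠ 0} = {y : XX C K | ((κ y.out : ℝ) : ℂ) ≠ 0} := by
      ext y
      simp only [Set.mem_ofPred_eq, ne_eq, Complex.ofReal_eq_zero]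
    rw [h]
    exact hκ2
  have hbd : ∀ g, κ g ≠ 0 → bnd (R : ℤ) g ∧ bnd (R : ℤ) g⁻¹ := fun g hg => by
    have h := hκ3 g (by simpa using hg)
    exact ⟨fun v hv => (h v hv).1, fun v hv => (h v hv).2⟩
  have hq2 : 2 ≤ Nat.card K := Finite.one_lt_card
  obtain ⟨m, c, hc1, hc2, hc3, hc4⟩ := hKpo (grp C K) (maxK C K) κ τ hτ hκr hκf hpos hsym hinf
    hnorm (ε / (3 ^ r * (Nat.card K : ℝ) ^
      ((2 * P₀.natDegree + 1) * (r + Nat.card (Rt C)) ^ 2))) (by positivity)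
  refine ⟨2 * (2 * (m * R)) + 3, ?_⟩
  intro N hN hPN hD n f hcusp horth lam hlam hl
  have hlow : (((cong C K 1 N).relIndex (arith C K 1) : ℕ) : ℝ) ≤
      (Nat.card K : ℝ) ^ ((2 * P₀.natDegree + 1) * (r + Nat.card (Rt C)) ^ 2) *
        (Module.finrank ℂ (Submodule.span ℂ {f : XX C K → ℂ | IsCusp N f}) : ℝ) := by
    exact_mod_cast H222.hLow r C hC K P₀ N hP₀.prime hN hPN
  have hS0 : 0 ≤ ∑ᶠ y, ‖c y‖ ^ 2 := finsum_nonneg fun y => by positivity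
  have hone : ∀ j, petersson N (f j) (f j) = 1 := fun j => by rw [horth, if_pos rfl]
  refine num (Nat.card K) N.natDegree (2 * (m * R)) r _ hq2 hD ε τ _ _ (∑ᶠ y, ‖c y‖ ^ 2) m n lam
    hτ (Nat.cast_nonneg _) hlow hε hS0 hc3 hl ?_
  refine hCn2 r C hC K hr N hN n f hcusp hone (fun j => ‖lam j ^ m‖ ^ 2)
    (fun j => by positivity) _ hS0 (N.natDegree - 1 - 2 * (m * R)) ?_
  intro γ hγ l g hg hl'
  have h1 := hThi2 r C hC K N hN n f hcusp horth (m * R) (by omega) c hc1 ?_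
    (fun j => lam j ^ m) ?_ γ hγ l g hg hl'
  · have h2 : ((N.natDegree : ℤ) - 1 - (2 * (m * R) : ℕ)) =
        ((N.natDegree - 1 - 2 * (m * R) : ℕ) : ℤ) := by omega
    rw [h2] at h1
    exact h1
  · intro y hy
    obtain ⟨gs, hgs1, hgs2, hgs3⟩ := hc2 y hy
    refine ⟨gs.prod, hgs3, ?_⟩
    have := bnd_prod hBdg hC R gs (fun g hg => hbd g (hgs2 g hg))
    rwa [hgs1] at this
  · intro j g'
    have h2 : (g' • (QuotientGroup.mk 1 : XX C K)) = pt g' := by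
      show (QuotientGroup.mk (g' * 1) : XX C K) = QuotientGroup.mk g'
      rw [mul_one]
    have := hc4 (fun y => f j (g' • y)) (lam j) (eigen_pt hκ1 (hlam j) g')
    rw [this, h2]

theorem fin_part (hKpo : KpoStmt) (hCn2 : Cn2Stmt) (hKtr : KtrStmt) [Finite K] (hr : 0 < r)
    (hC : SimplyLaced C)
    (P₀ : Polynomial K) (hP₀ : Irreducible P₀) (R : ℕ) (τ ε : ℝ) (hτ : 0 < τ) (hε : 0 < ε)
    (P : Polynomial K) (hP : 0 < P.natDegree)
    (κ : arith C K P → ℝ) (hκ : HeckeFin P (fun g => (κ g : ℂ)) R) (hpos : ∀ g, 0 ≤ κ g)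
    (hsym : ∀ g, κ g⁻¹ = κ g)
    (hinf : ∃ g, κ g ≠ 0 ∧ ∀ n : ℕ, 0 < n → g ^ n ∉ (arith C K 1).subgroupOf (arith C K P))
    (hnorm : NormLE ((arith C K 1).subgroupOf (arith C K P)) (fun g => (κ g : ℂ)) τ) :
    ∃ D : ℕ, ∀ N : Polynomial K, N ≠ 0 → P₀ ^ 4 ∣ N → IsCoprime P N → D ≤ N.natDegree →
      ∀ (n : ℕ) (f : Fin n → XX C K → ℂ), (∀ j, IsCusp N (f j)) →
      (∀ i j, petersson N (f i) (f j) = if i = j then 1 else 0) → ∀ lam : Fin n → ℂ,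
      (∀ j, EigenFin P N (fun g => (κ g : ℂ)) (lam j) (f j)) → (∀ j, τ ≤ ‖lam j‖) →
      (n : ℝ) ≤ ε * Module.finrank ℂ (Submodule.span ℂ {f : XX C K → ℂ | IsCusp N f}) := by
  obtain ⟨hκ1, hκ2, hκ3⟩ := hκ
  have hP0 : P ≠ 0 := by
    rintro rfl
    simp at hP
  have hκr : ∀ k ∈ (arith C K 1).subgroupOf (arith C K P), ∀ g, κ (k * g) = κ g ∧
      κ (g * k) = κ g := fun k hk g =>
    ⟨Complex.ofReal_injective (hκ1 k hk g).1, Complex.ofReal_injective (hκ1 k hk g).2⟩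
  have hκf : {y : arith C K P ⧸ (arith C K 1).subgroupOf (arith C K P) | κ y.out ≠ 0}.Finite := by
    have h : {y : arith C K P ⧸ (arith C K 1).subgroupOf (arith C K P) | κ y.out ≠ 0} =
        {y | ((κ y.out : ℝ) : ℂ) ≠ 0} := by
      ext y
      simp only [Set.mem_ofPred_eq, ne_eq, Complex.ofReal_eq_zero]
    rw [h]
    exact hκ2
  have hbd : ∀ a : arith C K P, κ a ≠ 0 → itg P R a.1 ∧ itg P R (a.1)⁻¹ := fun a ha => by
    have h := hκ3 a (by simpa using ha)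
    exact ⟨fun v hv => (h v hv).1, fun v hv => (h v hv).2⟩
  have hq2 : 2 ≤ Nat.card K := Finite.one_lt_card
  obtain ⟨m, c, hc1, hc2, hc3, hc4⟩ := hKpo (arith C K P) ((arith C K 1).subgroupOf (arith C K P))
    κ τ hτ hκr hκf hpos hsym hinf hnorm (ε / (3 ^ r * (Nat.card K : ℝ) ^
      ((2 * P₀.natDegree + 1) * (r + Nat.card (Rt C)) ^ 2))) (by positivity)
  refine ⟨2 * (2 * (m * (R * P.natDegree))) + 3, ?_⟩
  intro N hN hPN hcop hD n f hcusp horth lam hlam hl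
  have hlow : (((cong C K 1 N).relIndex (arith C K 1) : ℕ) : ℝ) ≤
      (Nat.card K : ℝ) ^ ((2 * P₀.natDegree + 1) * (r + Nat.card (Rt C)) ^ 2) *
        (Module.finrank ℂ (Submodule.span ℂ {f : XX C K → ℂ | IsCusp N f}) : ℝ) := by
    exact_mod_cast H222.hLow r C hC K P₀ N hP₀.prime hN hPN
  have hNr := hNrm r C hC K P N hP0 hN hcop
  have hNr1 := hNrm r C hC K 1 N one_ne_zero hN isCoprime_one_left
  obtain ⟨t1, t2, -, -⟩ := hTrf r C hC K P N hP0 hN hcop (fun g => (κ g : ℂ)) R ⟨hκ1, hκ2, hκ3⟩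
  have hone : ∀ j, petersson N (f j) (f j) = 1 := fun j => by rw [horth, if_pos rfl]
  obtain ⟨c', hd1, hd2, hd3, hd4⟩ := hKtr (grp C K) (arith C K P) (arith C K 1) (cong C K P N)
    (cong C K 1 N) hNr.2.1 (fun a ha => ha.1) hNr.2.2.1 (fun a ha => ha.1) hNr.2.2.2.1
    hNr.2.2.2.2.1 (fun g => (κ g : ℂ)) hκ1 (fun g => g.2.1) c hc1
  have hS0 : 0 ≤ ∑ᶠ y, ‖c' y‖ ^ 2 := finsum_nonneg fun y => by positivity
  refine num (Nat.card K) N.natDegree (2 * (m * (R * P.natDegree))) r _ hq2 hD ε τ _ _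
    (∑ᶠ y, ‖c' y‖ ^ 2) m n lam hτ (Nat.cast_nonneg _) hlow hε hS0 (by rw [hd3]; exact hc3) hl ?_
  refine hCn2 r C hC K hr N hN n f hcusp hone (fun j => ‖lam j ^ m‖ ^ 2)
    (fun j => by positivity) _ hS0 (N.natDegree - 1 - 2 * (m * (R * P.natDegree))) ?_
  intro γ hγ l g hg hl'
  have e0 : 2 * (m * R) * P.natDegree = 2 * (m * (R * P.natDegree)) := by ring
  have h1 := hThf2 r C hC K N hN n f hcusp horth P hP0 hcop (m * R) (by omega) c' hd1 ?_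
    (fun j => lam j ^ m) ?_ γ hγ l g hg hl'
  · have h2 : ((N.natDegree : ℤ) - 1 - (2 * (m * R) * P.natDegree : ℕ)) =
        ((N.natDegree - 1 - 2 * (m * (R * P.natDegree)) : ℕ) : ℤ) := by
      rw [e0]; omega
    rw [h2] at h1
    exact h1
  · intro y hy
    refine ⟨y.out, (QuotientGroup.out_eq' y).symm, ?_⟩
    obtain ⟨gs, hgs1, hgs2, hgs3⟩ := hc2 _ (hd2 y hy y.out (QuotientGroup.out_eq' y).symm)
    have h3 := itg_prod P R gs (fun g hg => hbd g (hgs2 g hg))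
    rw [hgs1] at h3
    have h4 := QuotientGroup.eq.mp hgs3
    obtain ⟨a, ha⟩ : ∃ a : grp C K, a = (y.out : cong C K P N).1 := ⟨_, rfl⟩
    obtain ⟨b, hb⟩ : ∃ b : grp C K, b = gs.prod.1 := ⟨_, rfl⟩
    have h5 : a⁻¹ * b ∈ arith C K 1 := by
      rw [ha, hb]
      exact h4
    rw [← hb] at h3
    have hl2 : a = b * (a⁻¹ * b)⁻¹ := by group
    have hl3 : itg P 0 (a⁻¹ * b)⁻¹ := fun v hv => by
      rw [pow_zero, one_smul]
      exact hNr1.2.2.2.2.2 _ (inv_mem h5) v hv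
    have hl4 : itg P 0 (a⁻¹ * b) := fun v hv => by
      rw [pow_zero, one_smul]
      exact hNr1.2.2.2.2.2 _ h5 v hv
    have h6 : itg P (m * R) a := by
      have h8 := itg_mul h3.1 hl3
      rw [add_zero, ← hl2] at h8
      exact h8
    have h7 : itg P (m * R) a⁻¹ := by
      have e1 : a⁻¹ = (a⁻¹ * b) * b⁻¹ := by group
      have := itg_mul hl4 h3.2
      rw [zero_add, ← e1] at this
      exact this
    rw [ha] at h6 h7
    exact fun v hv => ⟨h6 v hv, h7 v hv⟩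
  · intro j x
    have h8 := hd4 m (lam j) (fun F hF => hc4 F (lam j) hF) (fun y => f j ((y.out.1)⁻¹ • x))
      (eigen_fin (H := cong C K P N) ((cong C K 1 N).subgroupOf (cong C K P N))
        (fun δ : cong C K P N => ((κ ⟨δ.1, δ.2.1⟩ : ℝ) : ℂ)) t1 (f j)
        (fun l hl y => (hcusp j).1 l.1 hl y) (lam j) (fun y => hlam j y) x)
    rw [h8]
    congr 1
    have h9 := out_mul_inv_mem ((cong C K 1 N).subgroupOf (cong C K P N)) (1 : cong C K P N)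
    rw [mul_one] at h9
    exact (hcusp j).1 _ h9 x

end

end Pool.Agent.DEN.H224
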