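import Pool.Agent.Helper22_DEN3.Stmt

/-!
# The Ramanujan bound for 100 % of the cusp forms: statements of the modules
-/

open scoped BigOperators

namespace Pool.Agent.DEN

/-- KPO: powers of a nonnegative symmetric kernel: the square of the norm of the `m`-th power is
`o(τ ^ (2 m))` (there is no `ℓ²` eigenfunction at the top of the spectrum). -/
def KpoStmt : Prop :=
  ∀ (H : Type) [Group H] (L : Subgroup H) (k : H → ℝ) (τ : ℝ), 0 < τ →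
    (∀ l ∈ L, ∀ g, k (l * g) = k g ∧ k (g * l) = k g) → {y : H ⧸ L | k y.out ≠ 0}.Finite →
    (∀ g, 0 ≤ k g) → (∀ g, k g⁻¹ = k g) → (∃ g, k g ≠ 0 ∧ ∀ n : ℕ, 0 < n → g ^ n ∉ L) →
    NormLE L (fun g => (k g : ℂ)) τ → ∀ ε : ℝ, 0 < ε →
    ∃ (m : ℕ) (c : H ⧸ L → ℂ), (Function.support c).Finite ∧
      (∀ y, c y ≠ 0 → ∃ gs : List H, gs.length = m ∧ (∀ g ∈ gs, k g ≠ 0) ∧
        y = QuotientGroup.mk gs.prod) ∧
      ∑ᶠ y, ‖c y‖ ^ 2 ≤ ε * τ ^ (2 * m) ∧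
      ∀ (F : H ⧸ L → ℂ) (lam : ℂ), (∀ x, ∑ᶠ y, (k (x.out⁻¹ * y.out) : ℂ) * F y = lam * F x) →
        ∑ᶠ y, c y * F y = lam ^ m * F (QuotientGroup.mk 1)

/-- TH2, first part: the pointwise bound for a kernel at `∞`, refined (from BES, SCS2, BDG, NRM, FIN,
FSP). -/
def Thi2Stmt : Prop :=
  ∀ (r : ℕ) (C : Matrix (Fin r) (Fin r) ℤ) (_ : SimplyLaced C) (K : Type) [Field K] [Finite K]
    (N : Polynomial K) (_ : N ≠ 0) (n : ℕ) (f : Fin n → XX C K → ℂ)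
    (_ : ∀ j, IsCusp N (f j)) (_ : ∀ i j, petersson N (f i) (f j) = if i = j then 1 else 0)
    (ρ : ℕ) (_ : 2 * ρ < N.natDegree) (c : XX C K → ℂ) (_ : (Function.support c).Finite)
    (_ : ∀ y, c y ≠ 0 → ∃ a : grp C K, y = pt a ∧ bnd ρ a ∧ bnd ρ a⁻¹) (mu : Fin n → ℂ)
    (_ : ∀ j (g : grp C K), ∑ᶠ y, c y * f j (g • y) = mu j * f j (pt g)),
    ∀ γ ∈ arith C K 1, ∀ (l : Fin r → ℤ) (g : grp C K), IsTor l g → IsDom C l →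
      ∑ j, ‖mu j‖ ^ 2 * ‖f j (γ • pt g)‖ ^ 2 ≤
        (∑ᶠ y, ‖c y‖ ^ 2) * (Nat.card K : ℝ) ^ eb C l ((N.natDegree : ℤ) - 1 - (2 * ρ : ℕ))

/-- TH2, second part: the pointwise bound for a kernel at `P`, refined. -/
def Thf2Stmt : Prop :=
  ∀ (r : ℕ) (C : Matrix (Fin r) (Fin r) ℤ) (_ : SimplyLaced C) (K : Type) [Field K] [Finite K]
    (N : Polynomial K) (_ : N ≠ 0) (n : ℕ) (f : Fin n → XX C K → ℂ)
    (_ : ∀ j, IsCusp N (f j)) (_ : ∀ i j, petersson N (f i) (f j) = if i = j then 1 else 0)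
    (P : Polynomial K) (_ : P ≠ 0) (_ : IsCoprime P N)
    (ρ : ℕ) (_ : 2 * ρ * P.natDegree < N.natDegree)
    (c : (cong C K P N) ⧸ (cong C K 1 N).subgroupOf (cong C K P N) → ℂ)
    (_ : (Function.support c).Finite)
    (_ : ∀ y, c y ≠ 0 → ∃ a : cong C K P N, y = QuotientGroup.mk a ∧
      ∀ v : LieV C (FF K), Cd (ringA K 1) v →
        Cd (ringA K 1) (polyL K P ^ ρ • (a.1.1 v)) ∧
        Cd (ringA K 1) (polyL K P ^ ρ • ((a⁻¹).1.1 v)))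
    (mu : Fin n → ℂ) (_ : ∀ j x, ∑ᶠ δ, c δ * f j ((δ.out.1)⁻¹ • x) = mu j * f j x),
    ∀ γ ∈ arith C K 1, ∀ (l : Fin r → ℤ) (g : grp C K), IsTor l g → IsDom C l →
      ∑ j, ‖mu j‖ ^ 2 * ‖f j (γ • pt g)‖ ^ 2 ≤
        (∑ᶠ y, ‖c y‖ ^ 2) * (Nat.card K : ℝ) ^
          eb C l ((N.natDegree : ℤ) - 1 - (2 * ρ * P.natDegree : ℕ))

/-- CN2: the count, given the refined pointwise bound (from BIR, VAN, STL, MAS, FIN, FSP, ROOT). -/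
def Cn2Stmt : Prop :=
  ∀ (r : ℕ) (C : Matrix (Fin r) (Fin r) ℤ) (_ : SimplyLaced C) (K : Type) [Field K] [Finite K]
    (_ : 0 < r) (N : Polynomial K) (_ : N ≠ 0) (n : ℕ) (f : Fin n → XX C K → ℂ)
    (_ : ∀ j, IsCusp N (f j)) (_ : ∀ j, petersson N (f j) (f j) = 1)
    (w : Fin n → ℝ) (_ : ∀ j, 0 ≤ w j) (B : ℝ) (_ : 0 ≤ B) (m : ℕ)
    (_ : ∀ γ ∈ arith C K 1, ∀ (l : Fin r → ℤ) (g : grp C K), IsTor l g → IsDom C l →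
      ∑ j, w j * ‖f j (γ • pt g)‖ ^ 2 ≤ B * (Nat.card K : ℝ) ^ eb C l m),
    ∑ j, w j ≤ (2 + N.natDegree / (Nat.card K : ℝ) ^ m) ^ r *
      (cong C K 1 N).relIndex (arith C K 1) * B

/-- KTR: transfer of a function on `H / L` to `H' / L'` if `H = H' L`, `L' = L ∩ H'`. -/
def KtrStmt : Prop :=
  ∀ (G : Type) [Group G] (H L H' L' : Subgroup G), L ≤ H → H' ≤ H → L' ≤ H' → L' ≤ L →
    (∀ g ∈ H', g ∈ L → g ∈ L') → (∀ g ∈ H, ∃ γ ∈ H', ∃ l ∈ L, g = γ * l) →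
    ∀ κ : H → ℂ, (∀ k ∈ L.subgroupOf H, ∀ g, κ (k * g) = κ g ∧ κ (g * k) = κ g) →
    ∀ (hH : ∀ g : H', g.1 ∈ H) (c : H ⧸ L.subgroupOf H → ℂ), (Function.support c).Finite →
    ∃ c' : H' ⧸ L'.subgroupOf H' → ℂ, (Function.support c').Finite ∧
      (∀ y, c' y ≠ 0 → ∀ a : H', y = QuotientGroup.mk a →
        c (QuotientGroup.mk ⟨a.1, hH a⟩) ≠ 0) ∧
      ∑ᶠ y, ‖c' y‖ ^ 2 = ∑ᶠ y, ‖c y‖ ^ 2 ∧
      ∀ (m : ℕ) (lam : ℂ), (∀ F : H ⧸ L.subgroupOf H → ℂ,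
          (∀ x, ∑ᶠ y, κ (x.out⁻¹ * y.out) * F y = lam * F x) →
          ∑ᶠ y, c y * F y = lam ^ m * F (QuotientGroup.mk 1)) →
        ∀ F : H' ⧸ L'.subgroupOf H' → ℂ,
          (∀ x, ∑ᶠ y, κ ⟨(x.out⁻¹ * y.out).1, hH _⟩ * F y = lam * F x) →
          ∑ᶠ y, c' y * F y = lam ^ m * F (QuotientGroup.mk 1)

end Pool.Agent.DEN
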